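import Pool.Agent.W254.Ab.Four2

/-!
# Rank one matrices of linear forms in logarithms: the entries belong to one small space
-/

set_option autoImplicit false

namespace Pool.Agent.TH21.PA

open Module Finset MvPolynomial Pool.Agent.W254.Ab Pool.Agent.W254.PA

variable {Ω : Type} [Field Ω] [CharZero Ω] {V : Submodule (QA Ω) Ω}

/-- the elements of `V` which have a multiple by a transcendental value at `t` of a rational function
of degree at most `D` in `V` -/
def Bad {n : ℕ} (V : Submodule (QA Ω) Ω) (t : Fin n → Ω) (D : ℕ) : Set Ω :=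
  {y | y ∈ V ∧ ∃ A B : MvPolynomial (Fin n) (QA Ω), (∀ d ∈ A.support, ∀ j, d j ≤ D) ∧
    (∀ d ∈ B.support, ∀ j, d j ≤ D) ∧ aeval t B ≠ 0 ∧
    Transcendental ℚ (aeval t A / aeval t B) ∧ aeval t A / aeval t B * y ∈ V}

theorem finrank_bad (hV : Hyp V) {n : ℕ} (t : Fin n → Ω) (D : ℕ) :
    Module.Finite (QA Ω) (Submodule.span (QA Ω) (Bad V t D)) ∧
      finrank (QA Ω) (Submodule.span (QA Ω) (Bad V t D)) ≤ 2 * ((4 * D) ^ n - 2 ^ n) := by
  classical
  obtain ⟨b, hb, hspan, hli⟩ := exists_linearIndependent (QA Ω) (Bad V t D)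
  obtain ⟨E, hEc, hE⟩ := four_gen hV t D (ι := b) (fun i => (i : Ω)) (fun i => (hb i.2).1) hli
  have hall : ∀ i : b, i ∈ E := by
    intro i
    by_contra hi
    obtain ⟨-, A, B, hA, hB, h1, h2, h3⟩ := hb i.2
    exact hE i hi A B hA hB h1 h2 h3
  let hF : Fintype b := ⟨E, hall⟩
  have hcard : Fintype.card b ≤ 2 * ((4 * D) ^ n - 2 ^ n) := hEc
  rw [← hspan]
  have : Finite b := Finite.of_fintype b
  refine ⟨?_, ?_⟩
  · exact Module.Finite.span_of_finite _ (Set.toFinite b)
  · have h1 := finrank_span_le_card (R := QA Ω) b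
    rw [Set.toFinset_card] at h1
    omega

theorem transcendental_inv' {x : Ω} (h : Transcendental ℚ x) : Transcendental ℚ x⁻¹ := by
  intro h1
  apply h
  have := h1.inv
  rwa [inv_inv] at this

theorem bad_pair {n : ℕ} {t : Fin n → Ω} {D : ℕ} {x z : Ω} (hx : x ∈ V) (hz : z ∈ V) (hx0 : x ≠ 0)
    (hz0 : z ≠ 0) (htr : Transcendental ℚ (z / x)) {A B : MvPolynomial (Fin n) (QA Ω)}
    (hA : ∀ d ∈ A.support, ∀ j, d j ≤ D) (hB : ∀ d ∈ B.support, ∀ j, d j ≤ D)
    (h0 : aeval t A ≠ 0 ∨ aeval t B ≠ 0) (h : aeval t A * x = aeval t B * z) :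
    x ∈ Bad V t D ∧ z ∈ Bad V t D := by
  have hB0 : aeval t B ≠ 0 := by
    intro hb
    rw [hb, zero_mul] at h
    rcases mul_eq_zero.mp h with h1 | h1
    · rcases h0 with h0 | h0
      · exact h0 h1
      · exact h0 hb
    · exact hx0 h1
  have hA0 : aeval t A ≠ 0 := by
    intro ha
    rw [ha, zero_mul] at h
    rcases mul_eq_zero.mp h.symm with h1 | h1
    · exact hB0 h1
    · exact hz0 h1
  have h1 : aeval t A / aeval t B = z / x := by
    rw [div_eq_div_iff hB0 hx0, h, mul_comm]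
  have h2 : aeval t B / aeval t A = x / z := by
    rw [div_eq_div_iff hA0 hz0, mul_comm x, h]
  refine ⟨⟨hx, A, B, hA, hB, hB0, by rw [h1]; exact htr, ?_⟩,
    ⟨hz, B, A, hB, hA, hA0, ?_, ?_⟩⟩
  · rw [h1, div_mul_cancel₀ _ hx0]; exact hz
  · rw [h2, ← inv_div]; exact transcendental_inv' htr
  · rw [h2, div_mul_cancel₀ _ hz0]; exact hx

/-- two numbers whose quotient is algebraic are proportional over the algebraic numbers -/
theorem entries (hV : Hyp V) {n : ℕ} (t : Fin n → Ω) (D : ℕ) :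
    ∃ W : Submodule (QA Ω) Ω, W ≤ V ∧ Module.Finite (QA Ω) W ∧
      finrank (QA Ω) W ≤ 2 * ((4 * D) ^ n - 2 ^ n) ∧
      ∀ M : Matrix (Fin 2) (Fin 2) Ω, (∀ i j, M i j ∈ V) →
        LinearIndependent (QA Ω) (fun i : Fin 2 => fun j : Fin 2 => M i j) →
        LinearIndependent (QA Ω) (fun j : Fin 2 => fun i : Fin 2 => M i j) →
        M.det = 0 →
        (∃ A B : MvPolynomial (Fin n) (QA Ω), (∀ d ∈ A.support, ∀ j, d j ≤ D) ∧
          (∀ d ∈ B.support, ∀ j, d j ≤ D) ∧ (aeval t A ≠ 0 ∨ aeval t B ≠ 0) ∧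
          ((∃ i, aeval t A * M i 0 = aeval t B * M i 1) ∨
            ∃ j, aeval t A * M 0 j = aeval t B * M 1 j)) →
        ∀ i j, M i j ∈ W := by
  obtain ⟨hfin, hrank⟩ := finrank_bad hV t D
  refine ⟨Submodule.span (QA Ω) (Bad V t D), ?_, hfin, hrank, ?_⟩
  · rw [Submodule.span_le]
    intro y hy
    exact hy.1
  intro M hM hrow hcol hdet hAB
  rw [Matrix.det_fin_two] at hdet
  -- no zero rows, columns
  have hr : ∀ i, ¬ (M i 0 = 0 ∧ M i 1 = 0) := by
    rintro i ⟨h1, h2⟩
    apply hrow.ne_zero i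
    funext j
    fin_cases j
    · exact h1
    · exact h2
  have hc : ∀ j, ¬ (M 0 j = 0 ∧ M 1 j = 0) := by
    rintro j ⟨h1, h2⟩
    apply hcol.ne_zero j
    funext i
    fin_cases i
    · exact h1
    · exact h2
  have h00 : M 0 0 ≠ 0 := by
    intro h
    rw [h, zero_mul, zero_sub, neg_eq_zero, mul_eq_zero] at hdet
    rcases hdet with h1 | h1
    · exact hr 0 ⟨h, h1⟩
    · exact hc 0 ⟨h, h1⟩
  have h11 : M 1 1 ≠ 0 := by
    intro h
    rw [h, mul_zero, zero_sub, neg_eq_zero, mul_eq_zero] at hdet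
    rcases hdet with h1 | h1
    · exact hc 1 ⟨h1, h⟩
    · exact hr 1 ⟨h1, h⟩
  have h01 : M 0 1 ≠ 0 := by
    intro h
    rw [h, zero_mul, sub_zero, mul_eq_zero] at hdet
    rcases hdet with h1 | h1
    · exact h00 h1
    · exact h11 h1
  have h10 : M 1 0 ≠ 0 := by
    intro h
    rw [h, mul_zero, sub_zero, mul_eq_zero] at hdet
    rcases hdet with h1 | h1
    · exact h00 h1
    · exact h11 h1
  have hne : ∀ i j, M i j ≠ 0 := by
    intro i j
    fin_cases i <;> fin_cases j <;> assumption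
  have hcr : M 0 0 * M 1 1 = M 0 1 * M 1 0 := sub_eq_zero.mp hdet
  have htc : ∀ i, Transcendental ℚ (M i 1 / M i 0) := by
    intro i halg
    have hq : M i 1 / M i 0 ∈ QA Ω := mem_QA.mpr halg
    have h1 := LinearIndependent.pair_iff.mp (show LinearIndependent (QA Ω)
      ![(fun i : Fin 2 => M i 0), (fun i : Fin 2 => M i 1)] by
        convert hcol using 1
        funext j
        fin_cases j <;> rfl) (⟨M i 1 / M i 0, hq⟩ : QA Ω) (-1) (by
        funext k
        simp only [Pi.add_apply, Pi.smul_apply, Pi.zero_apply, neg_smul, one_smul]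
        change (M i 1 / M i 0) * M k 0 + - M k 1 = 0
        have hi := hne i 0
        fin_cases i <;> fin_cases k <;> field_simp <;> simp <;> first | linear_combination hcr | linear_combination (-1 : Ω) * hcr)
    exact one_ne_zero (neg_eq_zero.mp h1.2)
  have htr : ∀ j, Transcendental ℚ (M 1 j / M 0 j) := by
    intro j halg
    have hq : M 1 j / M 0 j ∈ QA Ω := mem_QA.mpr halg
    have h1 := LinearIndependent.pair_iff.mp (show LinearIndependent (QA Ω)
      ![(fun j : Fin 2 => M 0 j), (fun j : Fin 2 => M 1 j)] by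
        convert hrow using 1
        funext i
        fin_cases i <;> rfl) (⟨M 1 j / M 0 j, hq⟩ : QA Ω) (-1) (by
        funext k
        simp only [Pi.add_apply, Pi.smul_apply, Pi.zero_apply, neg_smul, one_smul]
        change (M 1 j / M 0 j) * M 0 k + - M 1 k = 0
        have hj := hne 0 j
        fin_cases j <;> fin_cases k <;> field_simp <;> simp <;> first | linear_combination hcr | linear_combination (-1 : Ω) * hcr)
    exact one_ne_zero (neg_eq_zero.mp h1.2)
  obtain ⟨A, B, hA, hB, h0, h⟩ := hAB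
  intro i j
  apply Submodule.subset_span
  rcases h with ⟨i₀, h⟩ | ⟨j₀, h⟩
  · have h' : aeval t A * M i 0 = aeval t B * M i 1 := by
      have hi₀ := hne i₀ 0
      apply mul_right_cancel₀ hi₀
      have hx : M i 0 * M i₀ 1 = M i 1 * M i₀ 0 := by
        fin_cases i <;> fin_cases i₀ <;> simp <;> first | ring1 | linear_combination hcr | linear_combination (-1 : Ω) * hcr
      calc aeval t A * M i 0 * M i₀ 0 = (aeval t A * M i₀ 0) * M i 0 := by ring
        _ = aeval t B * (M i 0 * M i₀ 1) := by rw [h]; ring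
        _ = aeval t B * M i 1 * M i₀ 0 := by rw [hx]; ring
    obtain ⟨h1, h2⟩ := bad_pair (D := D) (hM i 0) (hM i 1) (hne i 0) (hne i 1) (htc i) hA hB h0 h'
    fin_cases j
    · exact h1
    · exact h2
  · have h' : aeval t A * M 0 j = aeval t B * M 1 j := by
      have hj₀ := hne 0 j₀
      apply mul_right_cancel₀ hj₀
      have hx : M 0 j * M 1 j₀ = M 1 j * M 0 j₀ := by
        fin_cases j <;> fin_cases j₀ <;> simp <;> first | ring1 | linear_combination hcr | linear_combination (-1 : Ω) * hcr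
      calc aeval t A * M 0 j * M 0 j₀ = (aeval t A * M 0 j₀) * M 0 j := by ring
        _ = aeval t B * (M 0 j * M 1 j₀) := by rw [h]; ring
        _ = aeval t B * M 1 j * M 0 j₀ := by rw [hx]; ring
    obtain ⟨h1, h2⟩ := bad_pair (D := D) (hM 0 j) (hM 1 j) (hne 0 j) (hne 1 j) (htr j) hA hB h0 h'
    fin_cases i
    · exact h1
    · exact h2

end Pool.Agent.TH21.PA
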